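import Pool.Agent.Helper118.Width.A3
import Pool.Agent.Helper118.Width.A4

set_option linter.all false
open Finset

namespace H166Z.SV
open Width

theorem norm_e_le {B : ℝ} {m g g0 : ℕ} {c : ℕ → ℂ} {e : ℂ} {T τ ξ u M a : ℝ}
    (h : LF B m g g0 c e T τ ξ u M a) : ‖e‖ ≤ 8 ^ g := by
  have hB0 : 0 < B := by linarith [h.hB]
  have h1 := h.L7 (2 * T - 2 * B) (by linarith [h.hgap', h.hξ, h.hτB, h.hTB])
  rw [A3.norm_Ee] at h1
  have h2 : (g:ℝ) * (((2 * T - 2 * B - 2 * T : ℝ) : ℂ)).re / B = -(g * 2) := by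
    rw [Complex.ofReal_re]; field_simp; ring
  rw [h2] at h1
  have h3 : Real.exp (g * 2) ≤ 8 ^ g := by
    rw [Real.exp_nat_mul]
    apply pow_le_pow_left₀ (Real.exp_pos _).le
    have h4 : Real.exp 2 = Real.exp 1 * Real.exp 1 := by rw [← Real.exp_add]; norm_num
    have h5 := Real.exp_one_lt_d9
    have h6 := Real.exp_pos 1
    rw [h4]; nlinarith
  have h4 : Real.exp (-(g * 2)) * Real.exp (g * 2) = 1 := by rw [← Real.exp_add]; simp
  have h5 := Real.exp_pos ((g:ℝ) * 2)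
  have h6 : ‖e‖ = ‖e‖ * Real.exp (-(g * 2)) * Real.exp (g * 2) := by rw [mul_assoc, h4, mul_one]
  rw [h6]
  have h7 : ‖e‖ * Real.exp (-(g * 2)) * Real.exp (g * 2) ≤ 1 / 1000 * Real.exp (g * 2) :=
    mul_le_mul_of_nonneg_right h1 h5.le
  linarith

theorem rj_ge {B T τ : ℝ} (hB : 0 < B) (hT : 0 ≤ T) (hτ : 0 ≤ τ) (j : ℕ) : B ≤ rj B T τ j := by
  unfold rj
  have := Real.one_le_exp (show 0 ≤ (τ + j * T) / B by positivity)
  nlinarith

theorem norm_bj_le {B : ℝ} {m g g0 : ℕ} {c : ℕ → ℂ} {e : ℂ} {T τ ξ u M a : ℝ}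
    (h : LF B m g g0 c e T τ ξ u M a) (an : ℂ) (j : ℕ) :
    ‖bj an B g g0 e T τ j‖ ≤ ‖an‖ * (8 / B) ^ (g0 + j * g) := by
  have hB0 : 0 < B := by linarith [h.hB]
  have hT0 : 0 ≤ T := by linarith [h.hT]
  unfold bj
  rw [norm_mul, norm_div, norm_mul, Complex.norm_I, mul_one, norm_pow, Complex.norm_real,
    Real.norm_of_nonneg hB0.le, norm_prod, pow_add, ← mul_assoc]
  have h1 : ‖an‖ / B ^ g0 ≤ ‖an‖ * (8 / B) ^ g0 := by
    rw [div_eq_mul_inv, ← inv_pow]
    refine mul_le_mul_of_nonneg_left (pow_le_pow_left₀ (by positivity) ?_ _) (norm_nonneg _)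
    rw [inv_eq_one_div]
    exact div_le_div_of_nonneg_right (by norm_num) hB0.le
  have h2 : ∏ i ∈ range j, ‖e / ((rj B T τ i : ℝ) : ℂ) ^ g‖ ≤ (8 / B) ^ (j * g) := by
    rw [mul_comm j g, pow_mul]
    calc ∏ i ∈ range j, ‖e / ((rj B T τ i : ℝ) : ℂ) ^ g‖ ≤ ∏ i ∈ range j, (8 / B) ^ g := by
          refine Finset.prod_le_prod (fun i _ => norm_nonneg _) (fun i _ => ?_)
          rw [norm_div, norm_pow, Complex.norm_real,
            Real.norm_of_nonneg (A4.rj_pos hB0 T τ i).le, div_pow]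
          exact div_le_div₀ (by positivity) (norm_e_le h) (by positivity)
            (pow_le_pow_left₀ hB0.le (rj_ge hB0 hT0 h.hτ i) g)
      _ = _ := by rw [Finset.prod_const, Finset.card_range]
  exact mul_le_mul h1 h2 (Finset.prod_nonneg fun i _ => norm_nonneg _) (by positivity)

/-- the new coefficients of a stage are small -/
theorem Qp_coeff_le {B : ℝ} {m g g0 : ℕ} {c : ℕ → ℂ} {e : ℂ} {T τ ξ u M a : ℝ}
    (h : LF B m g g0 c e T τ ξ u M a) (P : Polynomial ℂ) (J n : ℕ) (hn : P.natDegree < n) :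
    ‖(Qp P B m g g0 c e T τ J).coeff n‖ ≤ if P.natDegree + g0 ≤ n ∧ n ≤ P.natDegree + g0 + J * g + m
      then (J + 1) * ((m + 1) * (‖P.leadingCoeff‖ * B * (8 / B) ^ (n - P.natDegree))) else 0 := by
  have hB0 : 0 < B := by linarith [h.hB]
  have hT0 : 0 ≤ T := by linarith [h.hT]
  rw [A4.Qp_eq, Polynomial.coeff_add, Polynomial.coeff_eq_zero_of_natDegree_lt hn, zero_add,
    Polynomial.finset_sum_coeff]
  split_ifs with hc
  · refine (norm_sum_le _ _).trans ?_
    have key : ∀ j ∈ range (J + 1), ‖(A4.Clu (bj P.leadingCoeff B g g0 e T τ j)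
        (P.natDegree + g0 + j * g) m (fun k => c k / ((rj B T τ j : ℝ) : ℂ) ^ k)).coeff n‖ ≤
        (m + 1) * (‖P.leadingCoeff‖ * B * (8 / B) ^ (n - P.natDegree)) := by
      intro j _
      rw [A4.Clu_eq, Polynomial.finset_sum_coeff]
      refine (norm_sum_le _ _).trans ?_
      have key2 : ∀ k ∈ range (m + 1), ‖(Polynomial.C (bj P.leadingCoeff B g g0 e T τ j *
          (c k / ((rj B T τ j : ℝ) : ℂ) ^ k)) * Polynomial.X ^ (P.natDegree + g0 + j * g + k)).coeff n‖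
          ≤ ‖P.leadingCoeff‖ * B * (8 / B) ^ (n - P.natDegree) := by
        intro k hk
        rw [Polynomial.coeff_C_mul_X_pow]
        split_ifs with hnk
        · have e1 : n - P.natDegree = (g0 + j * g) + k := by omega
          rw [e1, pow_add, norm_mul, norm_div, norm_pow, Complex.norm_real,
            Real.norm_of_nonneg (A4.rj_pos hB0 T τ j).le]
          have h1 := norm_bj_le h P.leadingCoeff j
          have h2 : ‖c k‖ ≤ B := by
            refine le_trans ?_ (h.hM.trans h.hMB)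
            exact Finset.single_le_sum (f := fun k => ‖c k‖) (fun k _ => norm_nonneg _) hk
          have h3 : ‖c k‖ / rj B T τ j ^ k ≤ B * (8 / B) ^ k := by
            rw [div_pow, ← mul_div_assoc]
            refine div_le_div₀ (by positivity) ?_ (by positivity)
              (pow_le_pow_left₀ hB0.le (rj_ge hB0 hT0 h.hτ j) k)
            have : (1:ℝ) ≤ 8 ^ k := one_le_pow₀ (by norm_num)
            nlinarith
          calc _ ≤ (‖P.leadingCoeff‖ * (8 / B) ^ (g0 + j * g)) * (B * (8 / B) ^ k) :=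
                mul_le_mul h1 h3 (by
                  have := A4.rj_pos hB0 T τ j
                  positivity) (by positivity)
            _ = _ := by ring
        · rw [norm_zero]; positivity
      refine (Finset.sum_le_sum key2).trans ?_
      rw [Finset.sum_const, Finset.card_range, nsmul_eq_mul]
      push_cast
      exact le_rfl
    refine (Finset.sum_le_sum key).trans ?_
    rw [Finset.sum_const, Finset.card_range, nsmul_eq_mul]
    push_cast
    exact le_rfl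
  · rw [Finset.sum_eq_zero, norm_zero]
    intro j hj
    rw [Finset.mem_range] at hj
    by_cases h1 : P.natDegree + g0 ≤ n
    · apply A4.Clu_coeff_high
      have h2 : j * g ≤ J * g := Nat.mul_le_mul_right g (by omega)
      omega
    · apply A4.Clu_coeff_low
      omega

/-- the factorial form of the bound -/
theorem Qp_coeff_fact {B : ℝ} {m g g0 : ℕ} {c : ℕ → ℂ} {e : ℂ} {T τ ξ u M a : ℝ}
    (h : LF B m g g0 c e T τ ξ u M a) (hg : (g:ℝ) ≤ B ^ 2) (hg0 : (g0:ℝ) ≤ B)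
    (P : Polynomial ℂ) (hP1 : 2 * ‖P.leadingCoeff‖ ≤ B) (hP2 : 2 * (P.natDegree : ℝ) ≤ B)
    (J : ℕ) (hJ : (J:ℝ) ≤ B) (n : ℕ) (hn : P.natDegree < n) :
    ‖(Qp P B m g g0 c e T τ J).coeff n‖ ^ 32 * n.factorial ≤ 1 := by
  have hB := h.hB
  have hB0 : 0 < B := by linarith
  have hB1 : 1 ≤ B := by linarith
  have h1 := Qp_coeff_le h P J n hn
  split_ifs at h1 with hc
  · obtain ⟨hc1, hc2⟩ := hc
    obtain ⟨d, hd⟩ : ∃ d, d = n - P.natDegree := ⟨_, rfl⟩
    rw [← hd] at h1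
    have hmg : (m:ℝ) + 1 ≤ g := by exact_mod_cast h.hmg
    have hdg0 : (g0:ℝ) ≤ d := by exact_mod_cast (show g0 ≤ d by omega)
    have hdB : B / 2 ≤ d := h.hg0.trans hdg0
    have hnd : (n:ℝ) = P.natDegree + d := by exact_mod_cast (show n = P.natDegree + d by omega)
    have hn2 : n ≤ 2 * d := by
      have : (n:ℝ) ≤ 2 * d := by linarith
      exact_mod_cast this
    have hd20 : 20 ≤ d := by
      have : (20:ℝ) ≤ d := by linarith
      exact_mod_cast this
    have hnB : (n:ℝ) ≤ B ^ 4 := by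
      have e1 : (n:ℝ) ≤ P.natDegree + g0 + J * g + m := by exact_mod_cast hc2
      have e2 : (J:ℝ) * g ≤ B * B ^ 2 := mul_le_mul hJ hg (by positivity) hB0.le
      have e3 : B ≤ B ^ 2 := by nlinarith
      have e4 : B ^ 2 ≤ B * B ^ 2 := by nlinarith
      have e5 : 100 * (B * B ^ 2) ≤ B ^ 4 := by
        have : B ^ 4 = B * (B * B ^ 2) := by ring
        rw [this]
        exact mul_le_mul_of_nonneg_right hB (by positivity)
      nlinarith
    have h2 : ‖(Qp P B m g g0 c e T τ J).coeff n‖ ≤ B ^ 5 * (8 / B) ^ d := by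
      refine h1.trans ?_
      have e1 : (J:ℝ) + 1 ≤ 2 * B := by linarith
      have e2 : (m:ℝ) + 1 ≤ B ^ 2 := by linarith
      have e3 : ‖P.leadingCoeff‖ * B ≤ B / 2 * B :=
        mul_le_mul_of_nonneg_right (by linarith) hB0.le
      calc ((J:ℝ) + 1) * ((m + 1) * (‖P.leadingCoeff‖ * B * (8 / B) ^ d))
          ≤ (2 * B) * (B ^ 2 * (B / 2 * B * (8 / B) ^ d)) := by gcongr
        _ = _ := by ring
    have h3 : (8 / B) ^ 2 ≤ 1 / B := by
      rw [div_pow, div_le_div_iff₀ (by positivity) hB0]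
      nlinarith
    have h4 : (B ^ 5 * (8 / B) ^ d) ^ 4 ≤ (1 / B) ^ d := by
      have e1 : (B ^ 5 * (8 / B) ^ d) ^ 4 = B ^ 20 * (((8 / B) ^ 2) ^ d) ^ 2 := by
        generalize (8 / B) = β
        ring
      have e2 : ((8 / B) ^ 2) ^ d ≤ (1 / B) ^ d := pow_le_pow_left₀ (by positivity) h3 d
      have e3 : B ^ 20 ≤ B ^ d := pow_le_pow_right₀ hB1 hd20
      have e4 : B ^ d * (1 / B) ^ d = 1 := by rw [← mul_pow]; field_simp; exact one_pow d
      rw [e1]
      calc B ^ 20 * (((8 / B) ^ 2) ^ d) ^ 2 ≤ B ^ d * ((1 / B) ^ d) ^ 2 := by gcongr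
        _ = (B ^ d * (1 / B) ^ d) * (1 / B) ^ d := by ring
        _ = _ := by rw [e4, one_mul]
    have h5 : ‖(Qp P B m g g0 c e T τ J).coeff n‖ ^ 32 ≤ ((1 / B) ^ d) ^ 8 := by
      calc _ ≤ (B ^ 5 * (8 / B) ^ d) ^ 32 := pow_le_pow_left₀ (norm_nonneg _) h2 32
        _ = ((B ^ 5 * (8 / B) ^ d) ^ 4) ^ 8 := by ring
        _ ≤ _ := pow_le_pow_left₀ (by positivity) h4 8
    have h6 : (n.factorial : ℝ) ≤ (B ^ d) ^ 8 := by
      have e1 : (n.factorial : ℝ) ≤ (n:ℝ) ^ n := by exact_mod_cast Nat.factorial_le_pow n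
      calc (n.factorial : ℝ) ≤ (n:ℝ) ^ n := e1
        _ ≤ (B ^ 4) ^ n := pow_le_pow_left₀ (by positivity) hnB n
        _ ≤ (B ^ 4) ^ (2 * d) := pow_le_pow_right₀ (one_le_pow₀ hB1) hn2
        _ = _ := by ring
    have e4 : (1 / B) ^ d * B ^ d = 1 := by rw [← mul_pow]; field_simp; exact one_pow d
    calc _ ≤ ((1 / B) ^ d) ^ 8 * (B ^ d) ^ 8 := mul_le_mul h5 h6 (by positivity) (by positivity)
      _ = ((1 / B) ^ d * B ^ d) ^ 8 := by ring
      _ = 1 := by rw [e4, one_pow]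
  · have h2 : ‖(Qp P B m g g0 c e T τ J).coeff n‖ = 0 := le_antisymm h1 (norm_nonneg _)
    rw [h2]; norm_num

end H166Z.SV
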