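import Mathlib

set_option autoImplicit false

namespace H166Z.SV

/-- `M(r) = max_{|z| = r} |f(z)|`. -/
noncomputable def maxModulus (f : ℂ → ℂ) (r : ℝ) : ℝ :=
  sSup ((fun z : ℂ => ‖f z‖) '' Metric.sphere 0 r)

/-- The order `limsup_{r → ∞} log log M(r) / log r`, as an extended real number. -/
noncomputable def order (f : ℂ → ℂ) : EReal :=
  Filter.limsup (fun r : ℝ =>
    ((Real.log (Real.log (maxModulus f r)) / Real.log r : ℝ) : EReal)) Filter.atTop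

/-- `S_0(τ) = {x + i y : |y| ≤ K x^{1-τ/2}, x ≥ x₀}`. -/
def region0 (τ K x₀ : ℝ) : Set ℂ := {z | |z.im| ≤ K * z.re ^ (1 - τ / 2) ∧ x₀ ≤ z.re}

/-- The rotated region `S_θ(τ) = e^{iθ} S_0(τ)`. -/
def region (τ K x₀ θ : ℝ) : Set ℂ :=
  (fun w : ℂ => Complex.exp (θ * Complex.I) * w) '' region0 τ K x₀

/-- The section `p_n(z) = ∑_{k=0}^n a_k z^k`. -/
noncomputable def partialSum (a : ℕ → ℂ) (n : ℕ) (z : ℂ) : ℂ :=
  ∑ k ∈ Finset.range (n + 1), a k * z ^ k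

end H166Z.SV
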