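import Pool.Agent.H166Z.SV.Stage
import Pool.Agent.H166Z.SV.Defs

set_option linter.all false
open Finset Filter

namespace H166Z.SV
open Width

theorem exists_sequence' : ∃ a : ℕ → ℂ,
    (∀ n, 1 ≤ n → ∀ z : ℂ, 0 ≤ z.re → |z.im| ≤ 1/2 → ∑ k ∈ range (n+1), a k * z^k ≠ 0) ∧
    (∀ M0 : ℝ, ∃ (n : ℕ) (r : ℝ), M0 ≤ r ∧ 1 ≤ r ∧ r ^ (2 + 1/200 : ℝ) ≤ n ∧ 1 ≤ ‖a n‖ * r^n) ∧
    (∀ n, ‖a n‖ ^ 32 * n.factorial ≤ 1) ∧ a 0 = 1 := by
  classical
  have hnext : ∀ (T : {P : Polynomial ℂ // 1 ≤ P.natDegree ∧ Good P ∧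
      ∀ n, ‖P.coeff n‖ ^ 32 * n.factorial ≤ 1}) (i : ℕ),
      ∃ T' : {P : Polynomial ℂ // 1 ≤ P.natDegree ∧ Good P ∧
        ∀ n, ‖P.coeff n‖ ^ 32 * n.factorial ≤ 1},
        T.1.natDegree < T'.1.natDegree ∧ (∀ k ≤ T.1.natDegree, T'.1.coeff k = T.1.coeff k) ∧
        ∃ (n : ℕ) (r : ℝ), n ≤ T'.1.natDegree ∧ (i : ℝ) ≤ r ∧ 1 ≤ r ∧
          r ^ (2 + 1/200 : ℝ) ≤ n ∧ 1 ≤ ‖T'.1.coeff n‖ * r^n := by
    rintro ⟨P, hP1, hP2, hP3⟩ i
    obtain ⟨Q, h1, h2, h3, h4, h5⟩ := stage' P hP1 hP2 i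
    refine ⟨⟨Q, by omega, h2, fun n => ?_⟩, h1, h3, h4⟩
    rcases le_or_gt n P.natDegree with hn | hn
    · rw [h3 n hn]; exact hP3 n
    · exact h5 n hn
  choose next hn1 hn2 hn3 using hnext
  have hstart : ∀ n, ‖(1 + Polynomial.X : Polynomial ℂ).coeff n‖ ^ 32 * n.factorial ≤ 1 := by
    intro n
    rcases n with _ | _ | n
    · simp
    · simp [Polynomial.coeff_one]
    · simp [Polynomial.coeff_one, Polynomial.coeff_X]
  let seq : ℕ → {P : Polynomial ℂ // 1 ≤ P.natDegree ∧ Good P ∧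
      ∀ n, ‖P.coeff n‖ ^ 32 * n.factorial ≤ 1} := fun n =>
    Nat.rec ⟨1 + Polynomial.X, I1.good_start_aux.1, I1.good_start_aux.2, hstart⟩
      (fun i T => next T i) n
  have hseq : ∀ i, seq (i + 1) = next (seq i) i := fun i => rfl
  have hdeg : ∀ i, i + 1 ≤ (seq i).1.natDegree := by
    intro i
    induction i with
    | zero => exact (seq 0).2.1
    | succ i ih =>
      have := hn1 (seq i) i
      rw [hseq]
      omega
  have hcoef : ∀ i j, i ≤ j → ∀ k ≤ (seq i).1.natDegree, (seq j).1.coeff k = (seq i).1.coeff k := by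
    intro i j hij
    induction j, hij using Nat.le_induction with
    | base => intro k _; rfl
    | succ j hij ih =>
      intro k hk
      have hd : (seq i).1.natDegree ≤ (seq j).1.natDegree := by
        clear ih
        induction j, hij using Nat.le_induction with
        | base => exact le_rfl
        | succ j hij ih' =>
          have := hn1 (seq j) j
          rw [hseq]
          omega
      rw [hseq, hn2 (seq j) j k (hk.trans hd), ih k hk]
  have ha : ∀ i k, k ≤ (seq i).1.natDegree → (seq k).1.coeff k = (seq i).1.coeff k := by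
    intro i k hk
    rcases le_total i k with h | h
    · exact hcoef i k h k hk
    · have hk' : k ≤ (seq k).1.natDegree := by
        have := hdeg k
        omega
      exact (hcoef k i h k hk').symm
  refine ⟨fun k => (seq k).1.coeff k, ?_, ?_, fun n => (seq n).2.2.2 n, ?_⟩
  · intro n hn z hz1 hz2
    have h1 : ∑ k ∈ range (n+1), (seq k).1.coeff k * z^k =
        ∑ k ∈ range (n+1), (seq n).1.coeff k * z^k := by
      refine Finset.sum_congr rfl fun k hk => ?_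
      rw [Finset.mem_range] at hk
      rw [ha n k (by have := hdeg n; omega)]
    rw [h1]
    exact (seq n).2.2.1 n hn z hz1 hz2
  · intro M0
    obtain ⟨i, hi⟩ := exists_nat_ge M0
    obtain ⟨n, r, h1, h2, h3, h4, h5⟩ := hn3 (seq i) i
    refine ⟨n, r, hi.trans h2, h3, h4, ?_⟩
    have h6 : (seq n).1.coeff n = (seq (i+1)).1.coeff n := ha (i+1) n h1
    show 1 ≤ ‖(seq n).1.coeff n‖ * r ^ n
    rw [h6]
    exact h5
  · show (1 + Polynomial.X : Polynomial ℂ).coeff 0 = 1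
    simp

theorem term_le (a : ℕ → ℂ) (ha : ∀ n, ‖a n‖ ^ 32 * n.factorial ≤ 1) (z : ℂ) (n : ℕ) :
    ‖a n * z ^ n‖ ≤ Real.exp ((2 * ‖z‖) ^ 32) * (1 / 2) ^ n := by
  obtain ⟨x, hx⟩ : ∃ x : ℝ, x = (2 * ‖z‖) ^ 32 := ⟨_, rfl⟩
  have hx0 : 0 ≤ x := by rw [hx]; positivity
  have hf : (0:ℝ) < n.factorial := by exact_mod_cast n.factorial_pos
  have h1 : (‖a n‖ * (2 * ‖z‖) ^ n) ^ 32 ≤ Real.exp x ^ 32 := by
    have e1 : (‖a n‖ * (2 * ‖z‖) ^ n) ^ 32 = ‖a n‖ ^ 32 * x ^ n := by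
      rw [hx]
      generalize (2 * ‖z‖) = y
      ring
    have e2 : ‖a n‖ ^ 32 ≤ 1 / n.factorial := by rw [le_div_iff₀ hf]; exact ha n
    have e3 : x ^ n / n.factorial ≤ Real.exp x := Real.pow_div_factorial_le_exp x hx0 n
    have e4 : Real.exp x ≤ Real.exp x ^ 32 := by
      calc Real.exp x = Real.exp x ^ 1 := (pow_one _).symm
        _ ≤ _ := pow_le_pow_right₀ (Real.one_le_exp hx0) (by norm_num)
    rw [e1]
    calc ‖a n‖ ^ 32 * x ^ n ≤ 1 / n.factorial * x ^ n :=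
          mul_le_mul_of_nonneg_right e2 (by positivity)
      _ = x ^ n / n.factorial := by ring
      _ ≤ _ := e3.trans e4
  have h2 : ‖a n‖ * (2 * ‖z‖) ^ n ≤ Real.exp x :=
    le_of_pow_le_pow_left₀ (by norm_num) (Real.exp_pos x).le h1
  rw [← hx, norm_mul, norm_pow]
  have e : ‖a n‖ * ‖z‖ ^ n = ‖a n‖ * (2 * ‖z‖) ^ n * (1 / 2) ^ n := by
    rw [mul_pow, one_div, inv_pow]; field_simp
  rw [e]
  exact mul_le_mul_of_nonneg_right h2 (by positivity)

theorem entire_of (a : ℕ → ℂ) (ha : ∀ n, ‖a n‖ ^ 32 * n.factorial ≤ 1) : IsEntireSeries a := by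
  intro z
  exact Summable.of_norm_bounded (summable_geometric_two.mul_left _) (term_le a ha z)

theorem maxMod_le (a : ℕ → ℂ) (ha : ∀ n, ‖a n‖ ^ 32 * n.factorial ≤ 1) (r : ℝ) (hr : 0 ≤ r) :
    maxMod a r ≤ 2 * Real.exp ((2 * r) ^ 32) := by
  unfold maxMod
  apply csSup_le
  · exact (NormedSpace.sphere_nonempty.2 hr).image _
  · rintro _ ⟨z, hz, rfl⟩
    have hzr : ‖z‖ = r := by simpa using hz
    have h1 := tsum_of_norm_bounded (hasSum_geometric_two.mul_left (Real.exp ((2 * ‖z‖) ^ 32)))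
      (term_le a ha z)
    rw [hzr] at h1
    simpa [mul_comm] using h1

theorem order_le (a : ℕ → ℂ) (ha : ∀ n, ‖a n‖ ^ 32 * n.factorial ≤ 1) (h0 : a 0 = 1) :
    entireOrder a ≤ ((65 : ℝ) : EReal) := by
  unfold entireOrder
  apply Filter.limsup_le_of_le
  · exact Filter.isCobounded_le_of_bot
  filter_upwards [Filter.eventually_ge_atTop (2:ℝ)] with r hr
  have hr0 : 0 < r := by linarith
  have hlog : 0 < Real.log r := Real.log_pos (by linarith)
  have h1 : 1 ≤ maxMod a r := by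
    have := I2.aux_coeff a (entire_of a ha) r hr0 0
    simpa [h0] using this
  have h2 : Real.log (maxMod a r) ≤ r ^ 65 := by
    have e1 := maxMod_le a ha r hr0.le
    have e2 : (2 * r) ^ 32 ≤ r ^ 64 := by
      calc (2 * r) ^ 32 ≤ (r * r) ^ 32 := by gcongr
        _ = r ^ 64 := by ring
    have e3 : 1 ≤ r ^ 64 := one_le_pow₀ (by linarith)
    have e4 : 2 * Real.exp ((2 * r) ^ 32) ≤ Real.exp (r ^ 65) := by
      have e5 : (2:ℝ) ≤ Real.exp 1 := by
        have := Real.add_one_le_exp (1:ℝ); linarith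
      calc 2 * Real.exp ((2 * r) ^ 32) ≤ Real.exp 1 * Real.exp (r ^ 64) := by gcongr
        _ = Real.exp (1 + r ^ 64) := by rw [Real.exp_add]
        _ ≤ _ := by
          apply Real.exp_le_exp.2
          have : r ^ 65 = r * r ^ 64 := by ring
          nlinarith
    rw [Real.log_le_iff_le_exp (by linarith)]
    exact e1.trans e4
  have h3 : 0 ≤ Real.log (maxMod a r) := Real.log_nonneg h1
  have h4 : Real.log (Real.log (maxMod a r)) ≤ 65 * Real.log r := by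
    rcases h3.eq_or_lt with h | h
    · rw [← h, Real.log_zero]; positivity
    · have := Real.log_le_log h h2
      rwa [Real.log_pow] at this
  rw [EReal.coe_le_coe_iff, div_le_iff₀ hlog]
  exact h4

/-- An entire function of finite order `> 2` all of whose sections are zero-free on a half-strip. -/
theorem exists_finite_order : ∃ (a : ℕ → ℂ) (f : ℂ → ℂ) (lam : ℝ),
    (∀ z, HasSum (fun k => a k * z ^ k) (f z)) ∧ order f = (lam : EReal) ∧ 2 < lam ∧
    ∀ n, 1 ≤ n → ∀ z : ℂ, 0 ≤ z.re → |z.im| ≤ 1/2 → partialSum a n z ≠ 0 := by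
  obtain ⟨a, h1, h2, h3, h4⟩ := exists_sequence'
  have hE := entire_of a h3
  have hlo := I2.order_large a hE h2
  have hhi := order_le a h3 h4
  have hne1 : entireOrder a ≠ ⊤ := ne_top_of_le_ne_top (EReal.coe_ne_top _) hhi
  have hne2 : entireOrder a ≠ ⊥ := ne_bot_of_le_ne_bot (EReal.coe_ne_bot _) hlo
  refine ⟨a, fun z => ∑' k, a k * z ^ k, (entireOrder a).toReal, fun z => (hE z).hasSum, ?_, ?_, h1⟩
  · rw [EReal.coe_toReal hne1 hne2]; rfl
  · rw [← EReal.coe_toReal hne1 hne2, EReal.coe_le_coe_iff] at hlo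
    linarith

theorem not_width : ¬ ∀ (τ K x₀ : ℝ), 0 < τ → 0 < K → 0 < x₀ →
    ∀ (f : ℂ → ℂ) (a : ℕ → ℂ), (∀ z, HasSum (fun k => a k * z ^ k) (f z)) →
    ∀ lam : ℝ, order f = (lam : EReal) → 0 < lam → τ < lam →
    ∃ M : Set ℕ, M.Infinite ∧ (∀ m ∈ M, 0 < m) ∧
      ∀ θ : ℝ, ∃ m ∈ M, ∃ z ∈ region τ K x₀ θ, partialSum a m z = 0 := by
  intro h
  obtain ⟨a, f, lam, h1, h2, h3, h4⟩ := exists_finite_order
  obtain ⟨M, -, hM, hθ⟩ := h 2 (1/2) 1 (by norm_num) (by norm_num) (by norm_num) f a h1 lam h2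
    (by linarith) h3
  obtain ⟨m, hm, z, ⟨w, ⟨hw1, hw2⟩, rfl⟩, hz⟩ := hθ 0
  have e : (1 - (2:ℝ) / 2) = 0 := by norm_num
  rw [e, Real.rpow_zero, mul_one] at hw1
  simp only [Complex.ofReal_zero, zero_mul, Complex.exp_zero, one_mul] at hz
  exact h4 m (hM m hm) w (by linarith) hw1 hz

end H166Z.SV
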