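import Pool.Agent.Helper118.Width.Main
import Pool.Agent.H166Z.SV.LFex
import Pool.Agent.H166Z.SV.Coef

set_option linter.all false
open Finset

namespace H166Z.SV
open Width Width.A5

/-- The stage lemma of the start file `Helper118/Width/A5`, with a decay bound on the new
coefficients. -/
theorem stage' (P : Polynomial ℂ) (hP : 1 ≤ P.natDegree) (hgood : Good P) (M0 : ℝ) :
    ∃ Q : Polynomial ℂ, P.natDegree < Q.natDegree ∧ Good Q ∧
      (∀ k ≤ P.natDegree, Q.coeff k = P.coeff k) ∧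
      (∃ (n : ℕ) (r : ℝ), n ≤ Q.natDegree ∧ M0 ≤ r ∧ 1 ≤ r ∧ r ^ (2 + 1/200 : ℝ) ≤ n ∧
        1 ≤ ‖Q.coeff n‖ * r^n) ∧
      ∀ n, P.natDegree < n → ‖Q.coeff n‖ ^ 32 * n.factorial ≤ 1 := by
  have hstrip := @A2.strip_nonvanishing assemblyStatement
  have hleft := @A3.left_bound
  have hlower := @A3.Tj_lower
  have hsec := @A4.Qp_sections
  have hcoef := @A4.Qp_coeffs
  have hP0 : P ≠ 0 := by rintro rfl; simp at hP
  have han : P.leadingCoeff ≠ 0 := Polynomial.leadingCoeff_ne_zero.mpr hP0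
  have hanp : 0 < ‖P.leadingCoeff‖ := norm_pos_iff.mpr han
  obtain ⟨ρ, hρ, hρP⟩ := stage_A P hP
  obtain ⟨c0, hc0, hc0P⟩ := stage_B P hP hgood ρ (by linarith)
  have hcoeff0 : P.coeff 0 ≠ 0 := by
    have := hgood 1 le_rfl 0 (by simp) (by norm_num)
    rw [Finset.sum_range_succ, Finset.sum_range_one] at this
    simpa using this
  obtain ⟨B, m, g, g0, c, e, T, τ, ξ, u, M, a, hBB, h, hgB, hg0B⟩ := exists_LF'
    (max (max (2 * ‖P.leadingCoeff‖) (2 * (P.natDegree : ℝ))) (max (2 * ρ) (max M0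
    (max (1 / ‖P.leadingCoeff‖) (33 * (‖P.leadingCoeff‖ * ρ ^ P.natDegree) / c0 + 1)))))
  have hB := le_trans (le_max_right _ _) hBB
  have hBx := le_trans (le_max_left _ _) hBB
  have hBx1 : 2 * ‖P.leadingCoeff‖ ≤ B := le_trans (le_max_left _ _) hBx
  have hBx2 : 2 * (P.natDegree : ℝ) ≤ B := le_trans (le_max_right _ _) hBx
  have hBa : 2 * ρ ≤ B := le_trans (le_max_left _ _) hB
  have hB' := le_trans (le_max_right _ _) hB
  have hBb : M0 ≤ B := le_trans (le_max_left _ _) hB'
  have hB'' := le_trans (le_max_right _ _) hB'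
  have hBc : 1 / ‖P.leadingCoeff‖ ≤ B := le_trans (le_max_left _ _) hB''
  have hBd : 33 * (‖P.leadingCoeff‖ * ρ ^ P.natDegree) / c0 + 1 ≤ B :=
    le_trans (le_max_right _ _) hB''
  have hBe : 33 * (‖P.leadingCoeff‖ * ρ ^ P.natDegree) < c0 * B := by
    have h1 : 33 * (‖P.leadingCoeff‖ * ρ ^ P.natDegree) / c0 < B := by linarith
    rw [div_lt_iff₀ hc0] at h1
    linarith
  have hB100 := h.hB
  have hB0 : 0 < B := by linarith
  have hT0 : 0 < T := by linarith [h.hT]
  have hg01 : 1 ≤ g0 := by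
    have h1 := h.hg0
    have h2 : (1 : ℝ) ≤ g0 := by linarith
    exact_mod_cast h2
  obtain ⟨J, hJ⟩ : ∃ J : ℕ, J = ⌊B / T⌋₊ := ⟨_, rfl⟩
  have hJ1 : (J : ℝ) * T ≤ B := by
    have : (J : ℝ) ≤ B / T := by rw [hJ]; exact Nat.floor_le (by positivity)
    rwa [le_div_iff₀ hT0] at this
  have hJ2 : B / T - 1 ≤ J := by
    have := Nat.lt_floor_add_one (B / T)
    rw [← hJ] at this
    linarith
  have hsecB := hsec P B hB0 m g g0 h.hmg hg01 c e T τ J
  have hcoefB := hcoef P B hB0 m g g0 h.hmg hg01 c h.hc0 e T τ J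
  have hP0t : ∀ t : ℂ, |t.im| ≤ 1 → -a ≤ t.re →
      ‖P.eval ((B : ℂ) * Complex.exp (t / B)) /
        (P.leadingCoeff * ((B : ℂ) * Complex.exp (t / B)) ^ P.natDegree) - 1‖ ≤ 1 / 1000 := by
    intro t _ hta
    obtain ⟨w, hw⟩ : ∃ w : ℂ, w = (B : ℂ) * Complex.exp (t / B) := ⟨_, rfl⟩
    rw [← hw]
    have hwn : ‖w‖ = B * Real.exp (t.re / B) := by
      rw [hw, norm_mul, Complex.norm_real, Real.norm_eq_abs, abs_of_pos hB0, Complex.norm_exp,
        Complex.div_ofReal_re]
    have h2 : -(1 / 8) ≤ t.re / B := by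
      rw [le_div_iff₀ hB0]
      have := h.haB
      linarith
    have h3 := Real.add_one_le_exp (t.re / B)
    have h4 : ρ ≤ ‖w‖ := by rw [hwn]; nlinarith
    have hw0 : w ≠ 0 := by
      intro h5; rw [h5, norm_zero] at h4; linarith
    have hne : P.leadingCoeff * w ^ P.natDegree ≠ 0 := mul_ne_zero han (pow_ne_zero _ hw0)
    have h5 := hρP w h4
    rw [div_sub_one hne, norm_div, div_le_iff₀ (norm_pos_iff.mpr hne)]
    linarith
  have hJB : (J:ℝ) ≤ B := by
    have e1 : (J:ℝ) * 1 ≤ J * T := mul_le_mul_of_nonneg_left (by linarith [h.hT]) (Nat.cast_nonneg J)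
    linarith
  refine ⟨Qp P B m g g0 c e T τ J, ?_, ?_, hcoefB.1, ?_,
    fun n hn => Qp_coeff_fact h hgB hg0B P hBx1 hBx2 J hJB n hn⟩
  rotate_left
  · -- Good
    intro q hq z hre him
    rcases le_or_gt q P.natDegree with hqn | hqn
    · rw [(hsecB q).1 hqn z]
      exact hgood q hq z hre him
    · by_cases hz0 : z = 0
      · rw [hz0, Finset.sum_range_succ']
        simp only [pow_succ, mul_zero, Finset.sum_const_zero, zero_add, pow_zero, mul_one]
        rw [hcoefB.1 0 (Nat.zero_le _)]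
        exact hcoeff0
      · rcases (hsecB q).2 hqn with ⟨j, hj, hrep⟩ | ⟨j, hj, x, hx, hrep⟩
        · obtain ⟨t, ht, hne⟩ := stage_sec h P hP ρ c0 hρ hc0 hρP hc0P hBa hBe z hz0 hre him
            (fun t => ∑ i ∈ range j, Tj B g g0 e T τ i t * Cx B c m (t - (τ + i * T : ℝ)))
            (fun t h1 h2 => (hstrip h (fun t => P.eval ((B : ℂ) * Complex.exp (t / B)) /
              (P.leadingCoeff * ((B : ℂ) * Complex.exp (t / B)) ^ P.natDegree)) hP0t j t h1 h2).1)
            (fun t h1 => le_trans (norm_sum_le _ _) (hleft h j t h1).1)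
          have h3 := hrep t
          rw [ht] at h3
          rw [h3]
          exact hne
        · obtain ⟨t, ht, hne⟩ := stage_sec h P hP ρ c0 hρ hc0 hρP hc0P hBa hBe z hz0 hre him
            (fun t => ∑ i ∈ range j, Tj B g g0 e T τ i t * Cx B c m (t - (τ + i * T : ℝ)) +
              Tj B g g0 e T τ j t * Cx B c x (t - (τ + j * T : ℝ)))
            (fun t h1 h2 => by
              have h3 := (hstrip h (fun t => P.eval ((B : ℂ) * Complex.exp (t / B)) /
                (P.leadingCoeff * ((B : ℂ) * Complex.exp (t / B)) ^ P.natDegree)) hP0t j t h1 h2).2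
                x hx
              rw [add_assoc] at h3
              exact h3)
            (fun t h1 => le_trans (norm_add_le _ _) (le_trans (add_le_add (norm_sum_le _ _) le_rfl)
              ((hleft h j t h1).2 x hx.le)))
          have h3 := hrep t
          rw [ht] at h3
          rw [h3]
          exact hne
  · -- final part
    obtain ⟨s, hs⟩ : ∃ s : ℝ, s = τ + J * T := ⟨_, rfl⟩
    have hs0 : 0 ≤ s := by
      rw [hs]
      have := h.hτ
      positivity
    have hs2 : s ≤ 2 * B := by rw [hs]; linarith [h.hτB]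
    obtain ⟨r, hr⟩ : ∃ r : ℝ, r = B * Real.exp (s / B) := ⟨_, rfl⟩
    have hrB : B ≤ r := by
      rw [hr]
      have := Real.one_le_exp (show 0 ≤ s / B by positivity)
      nlinarith
    have hr0 : 0 < r := by linarith
    have hr1 : 1 ≤ r := by linarith
    have hlow := hlower h J s (le_of_eq hs.symm)
    have hid := hcoefB.2 s
    rw [← hr] at hid
    have hge : ‖P.leadingCoeff‖ * r ≤
        ‖(Qp P B m g g0 c e T τ J).coeff (P.natDegree + g0 + J * g)‖ *
          r ^ (P.natDegree + g0 + J * g) := by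
      rw [hid]
      have h1 : 1 ≤ ‖Tj B g g0 e T τ J (s : ℂ)‖ :=
        le_trans (Real.one_le_exp (by positivity)) hlow
      have h2 : r ≤ r ^ P.natDegree := by
        calc r = r ^ 1 := (pow_one r).symm
          _ ≤ _ := pow_le_pow_right₀ hr1 hP
      have h3 : ‖P.leadingCoeff‖ * r ≤ ‖P.leadingCoeff‖ * r ^ P.natDegree :=
        mul_le_mul_of_nonneg_left h2 hanp.le
      have h4 : 0 ≤ ‖P.leadingCoeff‖ * r ^ P.natDegree := by positivity
      nlinarith
    have hone : 1 ≤ ‖P.leadingCoeff‖ * r := by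
      rw [div_le_iff₀ hanp] at hBc
      nlinarith
    refine ⟨P.natDegree + g0 + J * g, r, ?_, by linarith, hr1, ?_, by linarith⟩
    · apply Polynomial.le_natDegree_of_ne_zero
      intro h0
      rw [h0, norm_zero, zero_mul] at hge
      nlinarith [mul_pos hanp hr0]
    · have h1 : r ≤ Real.exp 3 * B := by
        rw [hr, mul_comm]
        refine mul_le_mul_of_nonneg_right (Real.exp_le_exp.mpr ?_) hB0.le
        rw [div_le_iff₀ hB0]; linarith
      refine le_trans (Real.rpow_le_rpow hr0.le h1 (by norm_num)) (le_trans h.growth ?_)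
      push_cast
      have h2 : (B / T - 2) * (g : ℝ) ≤ (J : ℝ) * g :=
        mul_le_mul_of_nonneg_right (by linarith) (Nat.cast_nonneg g)
      have h3 : (0 : ℝ) ≤ (P.natDegree : ℝ) := Nat.cast_nonneg _
      have h4 : (0 : ℝ) ≤ (g0 : ℝ) := Nat.cast_nonneg _
      linarith
  · -- degree
    obtain ⟨s, hs⟩ : ∃ s : ℝ, s = τ + J * T := ⟨_, rfl⟩
    have hlow := hlower h J s (le_of_eq hs.symm)
    have hid := hcoefB.2 s
    have hne : (Qp P B m g g0 c e T τ J).coeff (P.natDegree + g0 + J * g) ≠ 0 := by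
      intro h0
      rw [h0, norm_zero, zero_mul] at hid
      have h1 : 0 < ‖Tj B g g0 e T τ J (s : ℂ)‖ := lt_of_lt_of_le (Real.exp_pos _) hlow
      have h2 : 0 < ‖P.leadingCoeff‖ * (B * Real.exp (s / B)) ^ P.natDegree *
          ‖Tj B g g0 e T τ J (s : ℂ)‖ := by positivity
      linarith
    have := Polynomial.le_natDegree_of_ne_zero hne
    omega

end H166Z.SV
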